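import Pool.Agent.Q267.CDE.Quad2
import Pool.Agent.Results.MP_d57286_nt.Full

/-!
# MP_d636e9_nt

Lucas-weighted central binomial sums with denominator `4^k`.
-/

namespace Pool.Agent.Results.MP_d636e9_nt.Full

open Finset

/-- `r ≡ s (mod p^2)`: `p^2` divides the numerator of `r - s` written in lowest terms. -/
def Cong (p : ℕ) (r s : ℚ) : Prop := (p : ℤ) ^ 2 ∣ (r - s).num

/-- The Lucas sequence `u_k(4,1)`. -/
def lucas : ℕ → ℤ
  | 0 => 0
  | 1 => 1
  | (n + 2) => 4 * lucas (n + 1) - lucas n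

open Pool.Agent.Q267 Pool.Agent.Q267.CDE Pool.Agent.Q267.Seven Q278.PI Pool.Agent.Q267.CDE.Ext
  Pool.Agent.Q261.SC

theorem lucas_eq (k : ℕ) : lucas k = luc k := by
  have key : ∀ n, lucas n = luc n ∧ lucas (n + 1) = luc (n + 1) := by
    intro n
    induction n with
    | zero => exact ⟨rfl, rfl⟩
    | succ n ih =>
      refine ⟨ih.2, ?_⟩
      rw [lucas, luc, ih.1, ih.2]
  exact (key k).1

theorem cong_of {p : ℕ} [hp : Fact p.Prime] {r s : ℚ} (a b : O p) (ha : (a : ℚ) = r)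
    (hb : (b : ℚ) = s) (h : res2 p a = res2 p b) : Cong p r s := by
  subst ha hb
  exact cong_of_res2 p a b h

section

variable (p : ℕ) [hp : Fact p.Prime] {m : ℕ} (hpm : p = 2 * m + 1) (h3 : 3 < p)

include hpm h3

/-- the sum with weights `f` in `ℤ_(p)` and its image in `ℤ/p²` -/
theorem sum_res (f : ℕ → ℤ) :
    ∃ a : O p, (a : ℚ) = ∑ k ∈ range p, (f k : ℚ) / 4 ^ k * ((2 * k).choose k : ℚ) ^ 2 ∧
      res2 p a = ∑ k ∈ range (m + 1), (f k : R p) * ((dl m k : R p) * 4 ^ k) := by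
  have hcd := MP_d57286_nt.Full.h4 p hpm h3
  refine ⟨∑ k ∈ range p, (f k : O p) * (k.centralBinom : O p) ^ 2 * (invI p 4) ^ k, ?_, ?_⟩
  · push_cast
    refine sum_congr rfl fun k _ => ?_
    rw [invI_coe p 4 hcd, Nat.centralBinom, inv_pow, div_eq_mul_inv]
    push_cast
    ring
  · have hJ := res2_invI p 4 hcd
    simp only [map_sum, map_mul, map_pow, map_natCast, map_intCast]
    set J := res2 p (invI p 4) with hJdef
    push_cast at hJ
    have hJ16 : 16 * J ^ 2 = 1 := by linear_combination (4 * J + 1) * hJ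
    rw [← sum_range_add_sum_Ico _ (show m + 1 ≤ p by omega)]
    have h5 : ∑ k ∈ Ico (m + 1) p, (f k : R p) * (k.centralBinom : R p) ^ 2 * J ^ k = 0 := by
      refine sum_eq_zero fun k hk => ?_
      rw [mem_Ico] at hk
      rw [u2_zero p hpm h3 k (by omega) hk.2]
      ring
    rw [h5, add_zero]
    refine sum_congr rfl fun k hk => ?_
    have hk' : k ≤ m := by simpa [Nat.lt_succ_iff] using hk
    have h6 := u2 p hpm h3 (J ^ 2) hJ16 k hk'
    have h7 : J ^ k = 4 ^ k * (J ^ 2) ^ k := by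
      rw [← mul_pow]
      congr 1
      linear_combination (-J) * hJ
    rw [h7]
    linear_combination ((f k : R p) * 4 ^ k) * h6

end

theorem lucas_dd (k : ℕ) : MP_d57286_nt.Full.lucas k = luc k := MP_d57286_nt.Full.lucas_eq k

/-- **MP_d636e9_nt, part (a).** -/
theorem part_a (p : ℕ) (hp' : p.Prime) (h12 : p % 12 = 7) (x y : ℤ)
    (hxy : (p : ℤ) = x ^ 2 + 3 * y ^ 2) (hy : y % 4 = 1) :
    Cong p (∑ k ∈ range p, (lucas k : ℚ) / 4 ^ k * ((2 * k).choose k : ℚ) ^ 2)
      ((-1) ^ ((p + 1) / 4) * (4 * (y : ℚ) - p / (3 * y))) ∧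
    Cong p (∑ k ∈ range p, (k : ℚ) * (lucas k : ℚ) / 4 ^ k * ((2 * k).choose k : ℚ) ^ 2)
      ((-1) ^ ((p - 3) / 4) * (6 * (y : ℚ) - 7 * p / (3 * y))) := by
  have hp := Fact.mk hp'
  obtain ⟨t, ht⟩ : ∃ t, p = 12 * t + 7 := ⟨p / 12, by omega⟩
  have hm : p = 2 * (6 * t + 3) + 1 := by omega
  have h3 : 3 < p := by omega
  -- `p` does not divide `y`
  have hyd : ¬ (p : ℤ) ∣ y := by
    intro h
    have hy0 : y ≠ 0 := by omega
    have h1 := Int.le_of_dvd (by positivity) ((dvd_abs _ _).2 h)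
    have h2 : (p : ℤ) ^ 2 ≤ y ^ 2 := by
      rw [← sq_abs y]
      exact pow_le_pow_left₀ (by positivity) h1 2
    nlinarith [sq_nonneg x]
  have h6d : ¬ (p : ℤ) ∣ 6 := by
    intro h
    have h' : (p : ℤ) ∣ 2 * 3 := h
    rcases (Nat.prime_iff_prime_int.1 hp').dvd_or_dvd h' with h | h
    · have := Int.le_of_dvd (by norm_num) h
      omega
    · have := Int.le_of_dvd (by norm_num) h
      omega
  have h6y : ¬ (p : ℤ) ∣ 6 * y := by
    intro h
    rcases (Nat.prime_iff_prime_int.1 hp').dvd_or_dvd h with h | h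
    · exact h6d h
    · exact hyd h
  have hY := res2_invI p (6 * y) h6y
  push_cast at hY
  set Y := res2 p (invI p (6 * y)) with hYdef
  obtain ⟨w, hw, -, hAu, hA, -⟩ := A7 h12 (6 * t + 3) hm x y hxy hy Y hY
  have h4d := MP_d57286_nt.Full.h4 p hm h3
  have hJ := res2_invI p 4 h4d
  push_cast at hJ
  obtain ⟨b1, b2⟩ := MP_d57286_nt.Full.both p hp' h12 x y hxy hy
  -- the values at `1/4`
  have hL : Lc (6 * t + 3) (res2 p (invI p 4)) = 2 * (y : R p) - p * Y := by
    obtain ⟨a, ha, hra⟩ := MP_d57286_nt.Full.sum_res p hm h3 MP_d57286_nt.Full.lucas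
    have h1 : res2 p a = res2 p (2 * (y : O p) - (p : O p) * invI p (6 * y)) := by
      apply res2_of_cong
      rw [ha]
      have e : (((2 * (y : O p) - (p : O p) * invI p (6 * y) : O p)) : ℚ) =
          2 * (y : ℚ) - p / (6 * y) := by
        have c2 : ((2 : O p) : ℚ) = 2 := rfl
        push_cast
        rw [c2, invI_coe p _ h6y]
        push_cast
        rw [div_eq_mul_inv]
      rw [e]
      exact b1
    rw [hra] at h1
    simp only [map_mul, map_sub, map_natCast, map_intCast, map_ofNat] at h1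
    rw [← hYdef] at h1
    rw [← h1]
    unfold Lc
    refine sum_congr rfl fun k _ => ?_
    rw [lucas_dd]
  have hL1 : Lc1 (6 * t + 3) (res2 p (invI p 4)) = (y : R p) := by
    obtain ⟨a, ha, hra⟩ := MP_d57286_nt.Full.sum_res p hm h3
      (fun k => MP_d57286_nt.Full.lucas k * (k : ℤ))
    have h1 : res2 p a = res2 p (y : O p) := by
      apply res2_of_cong
      have e : (((y : O p)) : ℚ) = (y : ℚ) := by push_cast; rfl
      have e2 : (a : ℚ) = ∑ k ∈ range p, (k : ℚ) * (MP_d57286_nt.Full.lucas k : ℚ) / 64 ^ k *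
          ((2 * k).choose k : ℚ) ^ 2 := by
        rw [ha]
        refine sum_congr rfl fun k _ => ?_
        push_cast
        ring
      rw [e, e2]
      exact b2
    rw [hra] at h1
    simp only [map_intCast] at h1
    rw [← h1]
    unfold Lc1
    refine sum_congr rfl fun k _ => ?_
    rw [lucas_dd]
    push_cast
    ring
  have hδ : ((-1 : R p)) ^ ((p - 3) / 4) = -(-1) ^ t := by
    rw [show (p - 3) / 4 = 2 * t + t + 1 by omega, pow_succ, pow_add, pow_mul]
    norm_num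
  have hD : D0 p (6 * t + 3) w = -((-1) ^ t * ((2 * w + 1) * (2 * (y : R p) - p * Y))) := by
    have : D0 p (6 * t + 3) w = (-1) ^ ((p - 3) / 4) * (2 * w + 1) * (2 * (y : R p) - p * Y) := hA
    rw [this, hδ]
    ring
  obtain ⟨v1, v2⟩ := lucas7 p t ht w (res2 p (invI p 4)) y Y hw hJ hY hD hAu hL hL1
  have s1 : ((-1 : ℚ)) ^ ((p + 1) / 4) = (-1) ^ t := by
    rw [show (p + 1) / 4 = 2 * (t + 1) + t by omega, pow_add, pow_mul]
    norm_num
  have s2 : ((-1 : ℚ)) ^ ((p - 3) / 4) = -(-1) ^ t := by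
    rw [show (p - 3) / 4 = 2 * t + t + 1 by omega, pow_succ, pow_add, pow_mul]
    norm_num
  have hy0 : (y : ℚ) ≠ 0 := by
    have : y ≠ 0 := by omega
    exact_mod_cast this
  rw [s1, s2]
  constructor
  · obtain ⟨a, ha, hra⟩ := sum_res p hm h3 lucas
    refine cong_of a (2 * (-1) ^ t * (2 * (y : O p) - (p : O p) * invI p (6 * y))) ha ?_ ?_
    · have c2 : ((2 : O p) : ℚ) = 2 := rfl
      push_cast
      rw [c2, invI_coe p _ h6y]
      push_cast
      field_simp
      ring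
    · rw [hra]
      simp only [map_mul, map_sub, map_natCast, map_intCast, map_ofNat, map_pow, map_neg, map_one]
      rw [← hYdef, ← v1]
      unfold Lc
      refine sum_congr rfl fun k _ => ?_
      rw [lucas_eq]
  · obtain ⟨a, ha, hra⟩ := sum_res p hm h3 (fun k => lucas k * (k : ℤ))
    refine cong_of a (-((-1) ^ t * (6 * (y : O p) - 14 * ((p : O p) * invI p (6 * y))))) ?_ ?_ ?_
    · rw [ha]
      refine sum_congr rfl fun k _ => ?_
      push_cast
      ring
    · have c6 : ((6 : O p) : ℚ) = 6 := rfl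
      have c14 : ((14 : O p) : ℚ) = 14 := rfl
      push_cast
      rw [c6, c14, invI_coe p _ h6y]
      push_cast
      field_simp
      ring
    · rw [hra]
      simp only [map_mul, map_sub, map_natCast, map_intCast, map_ofNat, map_pow, map_neg, map_one]
      rw [← hYdef, ← v2]
      unfold Lc1
      refine sum_congr rfl fun k _ => ?_
      rw [lucas_eq]
      push_cast
      ring

/-- **MP_d636e9_nt, part (b).** -/
theorem part_b (p : ℕ) (hp' : p.Prime) (h12 : p % 12 = 1) :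
    Cong p (∑ k ∈ range p, (lucas k : ℚ) / 4 ^ k * ((2 * k).choose k : ℚ) ^ 2) 0 := by
  have hp := Fact.mk hp'
  have hp2 := hp'.two_le
  obtain ⟨t, ht⟩ : ∃ t, p = 12 * t + 1 := ⟨p / 12, by omega⟩
  have hm : p = 2 * (6 * t) + 1 := by omega
  have h3 : 3 < p := by omega
  have h4d := MP_d57286_nt.Full.h4 p hm h3
  have hJ := res2_invI p 4 h4d
  push_cast at hJ
  obtain ⟨a, ha, hra⟩ := sum_res p hm h3 lucas
  refine cong_of a 0 ha rfl ?_
  rw [hra, map_zero, ← lucas1 p t ht (res2 p (invI p 4)) hJ]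
  unfold Lc
  refine sum_congr rfl fun k _ => ?_
  rw [lucas_eq]

/-- **MP_d636e9_nt.** -/
theorem result (p : ℕ) (hp : p.Prime) :
    (p % 12 = 7 → ∀ x y : ℤ, (p : ℤ) = x ^ 2 + 3 * y ^ 2 → y % 4 = 1 →
      Cong p (∑ k ∈ range p, (lucas k : ℚ) / 4 ^ k * ((2 * k).choose k : ℚ) ^ 2)
        ((-1) ^ ((p + 1) / 4) * (4 * (y : ℚ) - p / (3 * y))) ∧
      Cong p (∑ k ∈ range p, (k : ℚ) * (lucas k : ℚ) / 4 ^ k * ((2 * k).choose k : ℚ) ^ 2)
        ((-1) ^ ((p - 3) / 4) * (6 * (y : ℚ) - 7 * p / (3 * y)))) ∧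
    (p % 12 = 1 →
      Cong p (∑ k ∈ range p, (lucas k : ℚ) / 4 ^ k * ((2 * k).choose k : ℚ) ^ 2) 0) :=
  ⟨fun h12 x y hxy hy => part_a p hp h12 x y hxy hy, fun h12 => part_b p hp h12⟩

end Pool.Agent.Results.MP_d636e9_nt.Full
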